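import Pool.Agent.Helper20.QP.St2

/-! Project QD part P, module SEP (separation and counting). -/

set_option autoImplicit false

open Filter Topology Matrix Set Metric MeasureTheory
open scoped ComplexConjugate ENNReal

namespace Pool.Agent.Helper62.QP

open Pool.Agent.Helper35.PM Pool.Agent.Helper20.QD Pool.Agent.Helper20.QP

lemma hs_four (M : Mat) : hs M = ‖M 0 0‖ ^ 2 + ‖M 0 1‖ ^ 2 + ‖M 1 0‖ ^ 2 + ‖M 1 1‖ ^ 2 := by
  unfold hs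
  simp only [Fin.sum_univ_two]
  ring

lemma hs_nonneg' (M : Mat) : 0 ≤ hs M := by
  rw [hs_four]
  positivity

lemma trace_diff (A B : SL) : 2 - ((A⁻¹ * B : SL) : Mat).trace =
    (A : Mat) 1 1 * ((A : Mat) - (B : Mat)) 0 0 - (A : Mat) 0 1 * ((A : Mat) - (B : Mat)) 1 0
      - (A : Mat) 1 0 * ((A : Mat) - (B : Mat)) 0 1 + (A : Mat) 0 0 * ((A : Mat) - (B : Mat)) 1 1 := by
  have hd := A.det_coe
  rw [Matrix.det_fin_two] at hd
  rw [Matrix.SpecialLinearGroup.coe_mul, Matrix.SpecialLinearGroup.coe_inv,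
    Matrix.adjugate_fin_two, Matrix.trace_fin_two]
  simp only [Matrix.mul_apply, Fin.sum_univ_two, Matrix.of_apply, Matrix.cons_val', Matrix.cons_val_zero,
    Matrix.cons_val_one, Matrix.cons_val_fin_one, Matrix.sub_apply]
  linear_combination (-2) * hd

lemma cs4 (x1 x2 x3 x4 y1 y2 y3 y4 : ℝ) : (x1 * y1 + x2 * y2 + x3 * y3 + x4 * y4) ^ 2 ≤
    (x1 ^ 2 + x2 ^ 2 + x3 ^ 2 + x4 ^ 2) * (y1 ^ 2 + y2 ^ 2 + y3 ^ 2 + y4 ^ 2) := by
  nlinarith [sq_nonneg (x1 * y2 - x2 * y1), sq_nonneg (x1 * y3 - x3 * y1),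
    sq_nonneg (x1 * y4 - x4 * y1), sq_nonneg (x2 * y3 - x3 * y2), sq_nonneg (x2 * y4 - x4 * y2),
    sq_nonneg (x3 * y4 - x4 * y3)]

lemma trace_bound (A B : SL) : (2 - ((A⁻¹ * B : SL) : Mat).trace.re) ^ 2 ≤
    hs (A : Mat) * hs ((A : Mat) - (B : Mat)) := by
  have h1 : (2 - ((A⁻¹ * B : SL) : Mat).trace.re) = (2 - ((A⁻¹ * B : SL) : Mat).trace).re := by
    simp
  have h2 : |(2 - ((A⁻¹ * B : SL) : Mat).trace.re)| ≤ ‖2 - ((A⁻¹ * B : SL) : Mat).trace‖ := by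
    rw [h1]
    exact Complex.abs_re_le_norm _
  have h3 : ‖2 - ((A⁻¹ * B : SL) : Mat).trace‖ ≤
      ‖(A : Mat) 0 0‖ * ‖((A : Mat) - (B : Mat)) 1 1‖ + ‖(A : Mat) 0 1‖ * ‖((A : Mat) - (B : Mat)) 1 0‖
      + ‖(A : Mat) 1 0‖ * ‖((A : Mat) - (B : Mat)) 0 1‖
      + ‖(A : Mat) 1 1‖ * ‖((A : Mat) - (B : Mat)) 0 0‖ := by
    rw [trace_diff]
    have a1 := norm_add_le ((A : Mat) 1 1 * ((A : Mat) - (B : Mat)) 0 0 -
      (A : Mat) 0 1 * ((A : Mat) - (B : Mat)) 1 0 - (A : Mat) 1 0 * ((A : Mat) - (B : Mat)) 0 1)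
      ((A : Mat) 0 0 * ((A : Mat) - (B : Mat)) 1 1)
    have a2 := norm_sub_le ((A : Mat) 1 1 * ((A : Mat) - (B : Mat)) 0 0 -
      (A : Mat) 0 1 * ((A : Mat) - (B : Mat)) 1 0) ((A : Mat) 1 0 * ((A : Mat) - (B : Mat)) 0 1)
    have a3 := norm_sub_le ((A : Mat) 1 1 * ((A : Mat) - (B : Mat)) 0 0)
      ((A : Mat) 0 1 * ((A : Mat) - (B : Mat)) 1 0)
    rw [norm_mul] at a1 a2 a3
    rw [norm_mul] at a3
    linarith
  have h4 := cs4 ‖(A : Mat) 0 0‖ ‖(A : Mat) 0 1‖ ‖(A : Mat) 1 0‖ ‖(A : Mat) 1 1‖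
    ‖((A : Mat) - (B : Mat)) 1 1‖ ‖((A : Mat) - (B : Mat)) 1 0‖ ‖((A : Mat) - (B : Mat)) 0 1‖
    ‖((A : Mat) - (B : Mat)) 0 0‖
  have h5 := pow_le_pow_left₀ (abs_nonneg _) (h2.trans h3) 2
  rw [sq_abs] at h5
  refine h5.trans (h4.trans (le_of_eq ?_))
  rw [hs_four, hs_four]
  ring

lemma sep1 (X ε : ℝ) (hε : 0 < ε) : ∃ η : ℝ, 0 < η ∧ ∀ A B : SL, hs (A : Mat) ≤ X →
    hs ((A : Mat) - (B : Mat)) ≤ η → sh (A⁻¹ * B) < ε := by
  obtain ⟨θ, hθ⟩ : ∃ θ, θ = min 1 (ε / 2) := ⟨_, rfl⟩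
  have hθ0 : 0 < θ := by rw [hθ]; positivity
  have hθ1 : θ ≤ 1 := by rw [hθ]; exact min_le_left _ _
  have hθ2 : θ ≤ ε / 2 := by rw [hθ]; exact min_le_right _ _
  have hX1 : 0 < |X| + 1 := by positivity
  refine ⟨θ ^ 2 / (|X| + 1), by positivity, fun A B hA hE => ?_⟩
  have h1 := trace_bound A B
  have h2 : hs (A : Mat) * hs ((A : Mat) - (B : Mat)) ≤ (|X| + 1) * (θ ^ 2 / (|X| + 1)) :=
    mul_le_mul (hA.trans ((le_abs_self X).trans (by linarith))) hE (hs_nonneg' _) hX1.le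
  rw [mul_div_cancel₀ _ hX1.ne'] at h2
  obtain ⟨δ, hδ⟩ : ∃ δ, δ = 2 - ((A⁻¹ * B : SL) : Mat).trace.re := ⟨_, rfl⟩
  rw [← hδ] at h1
  have h3 := abs_le_of_sq_le_sq' (h1.trans h2) hθ0.le
  unfold sh
  have h4 : ((A⁻¹ * B : SL) : Mat).trace.re = 2 - δ := by rw [hδ]; ring
  rw [h4]
  nlinarith [h3.1, h3.2]

/-- grid cell -/
noncomputable def cell (s : ℝ) (M : Mat) : Fin 2 → Fin 2 → ℤ × ℤ :=
  fun i j => (⌊(M i j).re / s⌋, ⌊(M i j).im / s⌋)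

lemma floor_close {s x y : ℝ} (hs : 0 < s) (h : ⌊x / s⌋ = ⌊y / s⌋) : (x - y) ^ 2 ≤ s ^ 2 := by
  have h1 := Int.abs_sub_lt_one_of_floor_eq_floor h
  rw [← sub_div, abs_div, abs_of_pos hs, div_lt_one hs] at h1
  rw [← sq_abs (x - y)]
  exact pow_le_pow_left₀ (abs_nonneg _) h1.le 2

lemma cell_close {s : ℝ} (hs' : 0 < s) {M M' : Mat} (h : cell s M = cell s M') :
    hs (M - M') ≤ 8 * s ^ 2 := by
  have key : ∀ i j, ‖(M - M') i j‖ ^ 2 ≤ 2 * s ^ 2 := by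
    intro i j
    have h1 := congrFun (congrFun h i) j
    unfold cell at h1
    have h2 := congrArg Prod.fst h1
    have h3 := congrArg Prod.snd h1
    simp only at h2 h3
    have h4 := floor_close hs' h2
    have h5 := floor_close hs' h3
    rw [Matrix.sub_apply, ← Complex.normSq_eq_norm_sq, Complex.normSq_apply, Complex.sub_re,
      Complex.sub_im]
    nlinarith
  rw [hs_four]
  have := key 0 0
  have := key 0 1
  have := key 1 0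
  have := key 1 1
  linarith

lemma floor_bd {s R x : ℝ} (hs : 0 < s) (h : |x| ≤ R) :
    ⌊x / s⌋ ∈ Finset.Icc (-(⌈R / s⌉ + 1)) (⌈R / s⌉ + 1) := by
  rw [Finset.mem_Icc]
  have h1 := abs_le.1 h
  have h2 : x / s ≤ R / s := div_le_div_of_nonneg_right h1.2 hs.le
  have h3 : -(R / s) ≤ x / s := by
    rw [← neg_div]
    exact div_le_div_of_nonneg_right h1.1 hs.le
  have h4 := Int.le_ceil (R / s)
  have h5 := Int.floor_le (x / s)
  have h6 := Int.lt_floor_add_one (x / s)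
  constructor
  · have : (-(⌈R / s⌉ + 1 : ℤ) : ℝ) ≤ (⌊x / s⌋ : ℝ) := by push_cast; linarith
    exact_mod_cast this
  · have : ((⌊x / s⌋ : ℤ) : ℝ) ≤ (⌈R / s⌉ + 1 : ℤ) := by push_cast; linarith
    exact_mod_cast this

lemma entry_bd {X : ℝ} {M : Mat} (h : hs M ≤ X) (i j : Fin 2) : ‖M i j‖ ≤ Real.sqrt |X| := by
  apply Real.le_sqrt_of_sq_le
  have h1 : ‖M i j‖ ^ 2 ≤ hs M := by
    rw [hs_four]
    have a1 := sq_nonneg ‖M 0 0‖
    have a2 := sq_nonneg ‖M 0 1‖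
    have a3 := sq_nonneg ‖M 1 0‖
    have a4 := sq_nonneg ‖M 1 1‖
    fin_cases i <;> fin_cases j <;> simp only [Fin.zero_eta, Fin.mk_one] <;> linarith
  exact h1.trans (h.trans (le_abs_self X))

theorem hSEP : StSEP := by
  intro X ε hε
  obtain ⟨η, hη, hsep⟩ := sep1 X ε hε
  refine ⟨⟨η, hη, hsep⟩, ?_⟩
  obtain ⟨s, hs0⟩ : ∃ s, s = Real.sqrt (η / 8) := ⟨_, rfl⟩
  have hspos : 0 < s := by rw [hs0]; exact Real.sqrt_pos.2 (by positivity)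
  have hs2 : 8 * s ^ 2 = η := by rw [hs0, Real.sq_sqrt (by positivity)]; ring
  obtain ⟨L, hL⟩ : ∃ L : Finset ℤ, L = Finset.Icc (-(⌈Real.sqrt |X| / s⌉ + 1))
    (⌈Real.sqrt |X| / s⌉ + 1) := ⟨_, rfl⟩
  obtain ⟨W, hW⟩ : ∃ W : Finset (Fin 2 → Fin 2 → ℤ × ℤ),
      W = Fintype.piFinset (fun _ => Fintype.piFinset (fun _ => L ×ˢ L)) := ⟨_, rfl⟩
  refine ⟨W.card, ?_⟩
  intro Γ _ σ hT
  have hmaps : ∀ γ ∈ {γ : Γ | hs (σ γ : Mat) ≤ X}, cell s (σ γ : Mat) ∈ (W : Set _) := by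
    intro γ hγ
    have hγ' : hs (σ γ : Mat) ≤ X := hγ
    rw [Finset.mem_coe, hW, Fintype.mem_piFinset]
    intro i
    rw [Fintype.mem_piFinset]
    intro j
    rw [Finset.mem_product, hL]
    exact ⟨floor_bd hspos ((Complex.abs_re_le_norm _).trans (entry_bd hγ' i j)),
      floor_bd hspos ((Complex.abs_im_le_norm _).trans (entry_bd hγ' i j))⟩
  have hinj : InjOn (fun γ : Γ => cell s (σ γ : Mat)) {γ : Γ | hs (σ γ : Mat) ≤ X} := by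
    intro γ hγ γ' hγ' he
    by_contra hne
    have h1 := cell_close hspos he
    rw [hs2] at h1
    have h2 := hsep (σ γ) (σ γ') hγ h1
    have h3 : γ⁻¹ * γ' ≠ 1 := fun h => hne (inv_mul_eq_one.1 h)
    have h4 := hT _ h3
    rw [map_mul, map_inv] at h4
    linarith
  have hfin : {γ : Γ | hs (σ γ : Mat) ≤ X}.Finite :=
    Set.Finite.of_injOn hmaps hinj W.finite_toSet
  refine ⟨hfin, ?_⟩
  have := Set.ncard_le_ncard_of_injOn (fun γ : Γ => cell s (σ γ : Mat)) hmaps hinj W.finite_toSet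
  rwa [Set.ncard_coe_finset] at this

end Pool.Agent.Helper62.QP
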